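import Pool.Agent.TH457.HT.Defs

/-!
# Slow heads and transposed matrices: the core

`X j i` is stored at the place `pX j i`, and `Y j i` at the place `pY j i`. The places `pX j i` with
the same `j` are far from each other, the places `pY j i` with different `j` are far from each other.
A nondeterministic program with slow heads accepts the disjoint pairs and only such pairs.
-/

set_option autoImplicit false

namespace Pool.Agent.Q330.SH

open Finset Pool.Agent.TH457.HT

variable {Λ : Type} {n k : ℕ}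

/-- a computation leads from `a` to `b` -/
def Reach (P : HeadProg Λ n k) (x : Fin n → Λ) : P.Cfg → P.Cfg → Prop :=
  Relation.ReflTransGen (P.Step x)

theorem reach_run (P : HeadProg Λ n k) (x : Fin n → Λ) {a b : P.Cfg} (h : Reach P x a b) :
    ∃ (t : ℕ) (c : ℕ → P.Cfg), c 0 = a ∧ c t = b ∧ ∀ i < t, P.Step x (c i) (c (i + 1)) := by
  induction h with
  | refl => exact ⟨0, fun _ => a, rfl, rfl, fun i hi => absurd hi (Nat.not_lt_zero i)⟩
  | @tail b d _ hbd ih =>
    obtain ⟨t, c, h0, ht, hs⟩ := ih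
    refine ⟨t + 1, fun i => if i ≤ t then c i else d, ?_, ?_, fun i hi => ?_⟩
    · simp [h0]
    · simp
    · rcases Nat.lt_or_ge i t with h | h
      · have h1 : i ≤ t := h.le
        have h2 : i + 1 ≤ t := h
        simp only [h1, h2, if_true]
        exact hs i h
      · have h1 : i = t := by omega
        subst h1
        have h2 : ¬ (i + 1 ≤ i) := by omega
        simp only [le_refl, h2, if_true, if_false]
        rw [ht]
        exact hbd

theorem accepts_of_reach (P : HeadProg Λ n k) (x : Fin n → Λ) {a b : P.Cfg} (h : Reach P x a b)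
    (ha : P.init a.1 a.2) (hb : P.acc b.1 b.2) : P.Accepts x := by
  obtain ⟨t, c, h0, ht, hs⟩ := reach_run P x h
  exact ⟨t, t, le_rfl, c, by rw [h0]; exact ha, by rw [ht]; exact hb, hs⟩

/-- part of a run -/
theorem reach_part (P : HeadProg Λ n k) (x : Fin n → Λ) (c : ℕ → P.Cfg) (a : ℕ) :
    ∀ b, a ≤ b → (∀ i, a ≤ i → i < b → P.Step x (c i) (c (i + 1))) → Reach P x (c a) (c b) := by
  intro b hab
  induction b, hab using Nat.le_induction with
  | base => intro _; exact Relation.ReflTransGen.refl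
  | succ b hab ih =>
    intro h
    exact Relation.ReflTransGen.tail (ih (fun i h1 h2 => h i h1 (by omega)))
      (h b hab (Nat.lt_succ_self b))

/-- heads are slow -/
theorem slow_run (P : HeadProg Λ n k) (x : Fin n → Λ) (c : ℕ → P.Cfg) (t : ℕ)
    (hs : ∀ i < t, P.Step x (c i) (c (i + 1))) (h : Fin k) (a : ℕ) :
    ∀ b, a ≤ b → b ≤ t → ((c b).2 h : ℕ) ≤ ((c a).2 h : ℕ) + (b - a) ∧
      ((c a).2 h : ℕ) ≤ ((c b).2 h : ℕ) + (b - a) := by
  intro b hab
  induction b, hab using Nat.le_induction with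
  | base => intro _; simp
  | succ b hab ih =>
    intro hb
    obtain ⟨h1, h2⟩ := ih (by omega)
    have h3 := P.slow _ _ _ _ _ (hs b (by omega)) h
    omega

/-- the places are at distance less than `lam` -/
def Close (lam : ℕ) (p q : Fin n) : Prop := (p : ℕ) < q + lam ∧ (q : ℕ) < p + lam

variable {J d lam : ℕ}

open Classical in
/-- the bits of `X j` which may be read during a short time -/
noncomputable def bits (lam : ℕ) (pX : Fin J → Fin d → Fin n) (X : Fin J → Fin d → Bool) (j : Fin J)
    (p : Fin k → Fin n) : Fin k → Bool :=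
  fun h => if hh : ∃ i, Close lam (pX j i) (p h) then X j hh.choose else false

theorem bits_eq (pX : Fin J → Fin d → Fin n)
    (h1 : ∀ j i i', ((pX j i : ℕ) < pX j i' + 2 * lam ∧ (pX j i' : ℕ) < pX j i + 2 * lam) → i = i')
    (X : Fin J → Fin d → Bool) (j : Fin J) (p : Fin k → Fin n) (h : Fin k) (i : Fin d)
    (hi : Close lam (pX j i) (p h)) : bits lam pX X j p h = X j i := by
  classical
  have hh : ∃ i, Close lam (pX j i) (p h) := ⟨i, hi⟩
  unfold bits
  rw [dif_pos hh]
  have h2 := hh.choose_spec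
  obtain ⟨i', hi'⟩ : ∃ i', hh.choose = i' := ⟨_, rfl⟩
  rw [hi'] at h2 ⊢
  have h3 : i' = i := by
    unfold Close at h2 hi
    exact h1 j _ _ ⟨by omega, by omega⟩
  rw [h3]

/-- the beginnings of the windows of a run -/
def D {P : HeadProg Λ n k} (lam : ℕ) (c : ℕ → P.Cfg) (t : ℕ) (s : ℕ) : P.Cfg := c (min (s * lam) t)

/-- during the window `s` some head is at a place of `Y j` -/
def Near {P : HeadProg Λ n k} (lam : ℕ) (pY : Fin J → Fin d → Fin n) (c : ℕ → P.Cfg) (t : ℕ)
    (j : Fin J) (s : ℕ) : Prop :=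
  ∃ τ, min (s * lam) t ≤ τ ∧ τ < min ((s + 1) * lam) t ∧ ∃ h i, (c τ).2 h = pY j i

/-- the words -/
structure Coding (W : (Fin J → Fin d → Bool) → (Fin J → Fin d → Bool) → Fin n → Λ)
    (pX pY : Fin J → Fin d → Fin n) : Prop where
  left : ∀ X X' Y p, (∀ j i, pX j i = p → X j i = X' j i) → W X Y p = W X' Y p
  right : ∀ X Y Y' p, (∀ j i, pY j i = p → Y j i = Y' j i) → W X Y p = W X Y' p

theorem step_congr (P : HeadProg Λ n k) {x y : Fin n → Λ} {a b : P.Cfg}
    (h : ∀ i, x (a.2 i) = y (a.2 i)) (hs : P.Step x a b) : P.Step y a b := by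
  unfold HeadProg.Step at hs ⊢
  have : (fun i => x (a.2 i)) = fun i => y (a.2 i) := funext h
  rwa [← this]

/-- windows without `Y j` -/
theorem alice {P : HeadProg Λ n k} {W : (Fin J → Fin d → Bool) → (Fin J → Fin d → Bool) → Fin n → Λ}
    {pX pY : Fin J → Fin d → Fin n} (hW : Coding W pX pY) {X Y Y' : Fin J → Fin d → Bool}
    {c : ℕ → P.Cfg} {t : ℕ} (hs : ∀ i < t, P.Step (W X Y) (c i) (c (i + 1))) {j : Fin J}
    (hY : ∀ j', j' ≠ j → Y j' = Y' j') {s : ℕ} (hn : ¬ Near lam pY c t j s) :
    Reach P (W X Y') (D lam c t s) (D lam c t (s + 1)) := by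
  unfold D
  refine reach_part P _ c _ _ ?_ ?_
  · apply min_le_min_right
    apply Nat.mul_le_mul_right
    omega
  · intro i h1 h2
    refine step_congr P (fun h => ?_) (hs i (lt_of_lt_of_le h2 (min_le_right _ _)))
    apply hW.right
    intro j' i' h3
    by_cases hj : j' = j
    · subst hj
      exact absurd ⟨i, h1, h2, h, i', h3.symm⟩ hn
    · rw [hY j' hj]

/-- windows with `Y j` -/
theorem bob {P : HeadProg Λ n k} {W : (Fin J → Fin d → Bool) → (Fin J → Fin d → Bool) → Fin n → Λ}
    {pX pY : Fin J → Fin d → Fin n} (hW : Coding W pX pY)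
    (hX1 : ∀ j i i', ((pX j i : ℕ) < pX j i' + 2 * lam ∧ (pX j i' : ℕ) < pX j i + 2 * lam) → i = i')
    {X X' Y : Fin J → Fin d → Bool}
    {c : ℕ → P.Cfg} {t : ℕ} (hs : ∀ i < t, P.Step (W X' Y) (c i) (c (i + 1))) {j : Fin J}
    (hX : ∀ j', j' ≠ j → X j' = X' j') {s : ℕ}
    (hb : bits lam pX X j (D lam c t s).2 = bits lam pX X' j (D lam c t s).2) :
    Reach P (W X Y) (D lam c t s) (D lam c t (s + 1)) := by
  unfold D at hb ⊢
  refine reach_part P _ c _ _ ?_ ?_
  · apply min_le_min_right
    apply Nat.mul_le_mul_right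
    omega
  · intro i h1 h2
    have hit : i < t := lt_of_lt_of_le h2 (min_le_right _ _)
    refine step_congr P (fun h => ?_) (hs i hit)
    apply hW.left
    intro j' i' h3
    by_cases hj : j' = j
    · subst hj
      have h4 := slow_run P _ c t hs h (min (s * lam) t) i h1 hit.le
      have h5 : i - min (s * lam) t < lam := by
        have e : (s + 1) * lam = s * lam + lam := by ring
        rw [e] at h2
        omega
      have h6 : Close lam (pX j' i') ((c (min (s * lam) t)).2 h) := by
        unfold Close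
        rw [h3]
        omega
      have h7 := congrFun hb h
      rw [bits_eq pX hX1 X j' _ h i' h6, bits_eq pX hX1 X' j' _ h i' h6] at h7
      exact h7.symm
    · rw [hX j' hj]

/-- the transcript: the triples of all windows with `Y j` -/
def Tr {P : HeadProg Λ n k} (lam : ℕ) (pX pY : Fin J → Fin d → Fin n) (X : Fin J → Fin d → Bool)
    (c : ℕ → P.Cfg) (t : ℕ) (j : Fin J) : Set (P.Cfg × P.Cfg × (Fin k → Bool)) :=
  {τ | ∃ s, s < t / lam + 1 ∧ Near lam pY c t j s ∧
    τ = (D lam c t s, D lam c t (s + 1), bits lam pX X j (D lam c t s).2)}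

/-- crossing over -/
theorem cross {P : HeadProg Λ n k} {W : (Fin J → Fin d → Bool) → (Fin J → Fin d → Bool) → Fin n → Λ}
    {pX pY : Fin J → Fin d → Fin n} (hlam : 0 < lam) (hW : Coding W pX pY)
    (hX1 : ∀ j i i', ((pX j i : ℕ) < pX j i' + 2 * lam ∧ (pX j i' : ℕ) < pX j i + 2 * lam) → i = i')
    {X Y X' Y' : Fin J → Fin d → Bool} {c c' : ℕ → P.Cfg} {t t' : ℕ}
    (hs : ∀ i < t, P.Step (W X Y) (c i) (c (i + 1)))
    (hs' : ∀ i < t', P.Step (W X' Y') (c' i) (c' (i + 1)))
    (h0 : P.init (c 0).1 (c 0).2) (h1 : P.acc (c t).1 (c t).2) {j : Fin J}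
    (hX : ∀ j', j' ≠ j → X j' = X' j') (hY : ∀ j', j' ≠ j → Y j' = Y' j')
    (hT : Tr lam pX pY X c t j = Tr lam pX pY X' c' t' j) : P.Accepts (W X Y') := by
  have key : ∀ s, s ≤ t / lam + 1 → Reach P (W X Y') (D lam c t 0) (D lam c t s) := by
    intro s
    induction s with
    | zero => intro _; exact Relation.ReflTransGen.refl
    | succ s ih =>
      intro h
      refine Relation.ReflTransGen.trans (ih (by omega)) ?_
      by_cases hn : Near lam pY c t j s
      · have h2 : (D lam c t s, D lam c t (s + 1), bits lam pX X j (D lam c t s).2) ∈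
            Tr lam pX pY X' c' t' j := by
          rw [← hT]
          exact ⟨s, by omega, hn, rfl⟩
        have h4 : ∃ s', s' < t' / lam + 1 ∧ Near lam pY c' t' j s' ∧
            (D lam c t s, D lam c t (s + 1), bits lam pX X j (D lam c t s).2) =
            (D lam c' t' s', D lam c' t' (s' + 1), bits lam pX X' j (D lam c' t' s').2) := h2
        obtain ⟨s', _, _, h3⟩ := h4
        have e1 : D lam c t s = D lam c' t' s' := congrArg Prod.fst h3
        have e2 : D lam c t (s + 1) = D lam c' t' (s' + 1) := congrArg (fun z => z.2.1) h3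
        have e3 : bits lam pX X j (D lam c t s).2 = bits lam pX X' j (D lam c' t' s').2 :=
          congrArg (fun z => z.2.2) h3
        rw [e1, e2]
        refine bob hW hX1 hs' hX ?_
        rw [e1] at e3
        exact e3
      · exact alice hW hs hY hn
  have h2 := key _ le_rfl
  refine accepts_of_reach P _ h2 ?_ ?_
  · unfold D
    simpa using h0
  · unfold D
    have h3 : min ((t / lam + 1) * lam) t = t := by
      apply min_eq_right
      have := Nat.lt_div_mul_add (a := t) hlam
      rw [add_mul, one_mul]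
      exact this.le
    rw [h3]
    exact h1

open Classical in
/-- few windows are near -/
theorem near_sum {P : HeadProg Λ n k} {pY : Fin J → Fin d → Fin n}
    (hY1 : ∀ j j' i i', ((pY j i : ℕ) < pY j' i' + 2 * lam ∧ (pY j' i' : ℕ) < pY j i + 2 * lam) →
      j = j')
    {x : Fin n → Λ} {c : ℕ → P.Cfg} {t : ℕ} (hs : ∀ i < t, P.Step x (c i) (c (i + 1))) (M : ℕ) :
    ∑ j : Fin J, ((range M).filter (fun s => Near lam pY c t j s)).card ≤ k * M := by
  have h1 : ∀ j : Fin J, ∀ s : ℕ, Near lam pY c t j s →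
      ∃ h : Fin k, ∃ i, Close lam (pY j i) ((D lam c t s).2 h) := by
    rintro j s ⟨τ, h2, h3, h, i, h4⟩
    refine ⟨h, i, ?_⟩
    have hτ : τ < t := lt_of_lt_of_le h3 (min_le_right _ _)
    have h5 := slow_run P _ c t hs h (min (s * lam) t) τ h2 hτ.le
    have h6 : τ - min (s * lam) t < lam := by
      have e : (s + 1) * lam = s * lam + lam := by ring
      rw [e] at h3
      omega
    unfold Close D
    rw [← h4]
    omega
  rw [← card_sigma]
  have h2 : ∀ p : (_ : Fin J) × ℕ, p ∈ (univ : Finset (Fin J)).sigma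
      (fun j => (range M).filter (fun s => Near lam pY c t j s)) →
      ∃ h : Fin k, ∃ i, Close lam (pY p.1 i) ((D lam c t p.2).2 h) := by
    intro p hp
    rw [mem_sigma, mem_filter] at hp
    exact h1 p.1 p.2 hp.2.2
  rcases Nat.eq_zero_or_pos k with hk | hk
  · subst hk
    rw [zero_mul, Nat.le_zero, card_eq_zero, eq_empty_iff_forall_notMem]
    intro p hp
    obtain ⟨h, -⟩ := h2 p hp
    exact h.elim0
  have : Nonempty (Fin k) := ⟨⟨0, hk⟩⟩
  obtain ⟨F, hF⟩ : ∃ F : Fin J → ℕ → Fin k, ∀ j s,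
      (∃ h : Fin k, ∃ i, Close lam (pY j i) ((D lam c t s).2 h)) →
      ∃ i, Close lam (pY j i) ((D lam c t s).2 (F j s)) := by
    have h4 : ∀ (j : Fin J) (s : ℕ), ∃ g : Fin k,
        (∃ h : Fin k, ∃ i, Close lam (pY j i) ((D lam c t s).2 h)) →
        ∃ i, Close lam (pY j i) ((D lam c t s).2 g) := by
      intro j s
      by_cases hc : ∃ h : Fin k, ∃ i, Close lam (pY j i) ((D lam c t s).2 h)
      · obtain ⟨g, hg⟩ := hc
        exact ⟨g, fun _ => hg⟩
      · exact ⟨⟨0, hk⟩, fun hh => absurd hh hc⟩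
    exact ⟨fun j s => (h4 j s).choose, fun j s => (h4 j s).choose_spec⟩
  have h3 : ((univ : Finset (Fin J)).sigma
      (fun j => (range M).filter (fun s => Near lam pY c t j s))).card ≤
      ((univ : Finset (Fin k)) ×ˢ range M).card := by
    refine card_le_card_of_injOn (fun p => (F p.1 p.2, p.2)) ?_ ?_
    · intro p hp
      rw [mem_coe, mem_sigma, mem_filter] at hp
      rw [mem_coe, mem_product]
      exact ⟨mem_univ _, hp.2.1⟩
    · rintro ⟨p1, p2⟩ hp ⟨q1, q2⟩ hq hpq
      rw [mem_coe] at hp hq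
      obtain ⟨a, hpa⟩ := hF p1 p2 (h2 _ hp)
      obtain ⟨b, hqb⟩ := hF q1 q2 (h2 _ hq)
      have e1 : p2 = q2 := congrArg Prod.snd hpq
      subst e1
      have e2 : F p1 p2 = F q1 p2 := congrArg Prod.fst hpq
      rw [← e2] at hqb
      have e3 : p1 = q1 := by
        unfold Close at hpa hqb
        exact hY1 p1 q1 a b ⟨by omega, by omega⟩
      subst e3
      rfl
  rw [card_product, card_univ, Fintype.card_fin, card_range] at h3
  exact h3

end Pool.Agent.Q330.SH
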