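import Pool.Agent.Q330.SH.Core

/-!
# Slow heads and transposed matrices: the bound
-/

set_option autoImplicit false

namespace Pool.Agent.Q330.SH

open Finset Pool.Agent.TH457.HT

variable {Λ : Type} {n k J d lam : ℕ}

/-- enumeration of a small set -/
theorem exists_enum {α : Type} (A : Set α) (v : ℕ) (hfin : A.Finite) (hA : A.ncard ≤ v) :
    ∃ g : Fin v → Option α, ∀ a, a ∈ A ↔ ∃ i, g i = some a := by
  classical
  obtain ⟨s, rfl⟩ : ∃ s : Finset α, (s : Set α) = A := ⟨hfin.toFinset, by simp⟩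
  rw [Set.ncard_coe_finset] at hA
  let e := s.equivFin
  refine ⟨fun i => if h : (i : ℕ) < s.card then some (e.symm ⟨i, h⟩).1 else none, fun a => ?_⟩
  constructor
  · intro ha
    have ha' : a ∈ s := ha
    refine ⟨⟨(e ⟨a, ha'⟩ : ℕ), lt_of_lt_of_le (e ⟨a, ha'⟩).2 hA⟩, ?_⟩
    beta_reduce
    rw [dif_pos (e ⟨a, ha'⟩).2]
    simp
  · rintro ⟨i, hi⟩
    beta_reduce at hi
    by_cases h : (i : ℕ) < s.card
    · rw [dif_pos h, Option.some.injEq] at hi
      rw [← hi]
      exact (e.symm ⟨i, h⟩).2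
    · rw [dif_neg h] at hi
      exact absurd hi (by simp)

/-- **The bound.** -/
theorem bound (P : HeadProg Λ n k) (W : (Fin J → Fin d → Bool) → (Fin J → Fin d → Bool) → Fin n → Λ)
    (pX pY : Fin J → Fin d → Fin n) (hlam : 0 < lam) (hJ : 0 < J) (hW : Coding W pX pY)
    (hX1 : ∀ j i i', ((pX j i : ℕ) < pX j i' + 2 * lam ∧ (pX j i' : ℕ) < pX j i + 2 * lam) → i = i')
    (hY1 : ∀ j j' i i', ((pY j i : ℕ) < pY j' i' + 2 * lam ∧ (pY j' i' : ℕ) < pY j i + 2 * lam) →
      j = j')
    (T : ℕ)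
    (hacc : ∀ X Y, (∀ j i, X j i = true → Y j i = true → False) → P.AcceptsIn T (W X Y))
    (hrej : ∀ X Y, (∃ j i, X j i = true ∧ Y j i = true) → ¬ P.Accepts (W X Y)) :
    2 ^ d ≤ J * (Fintype.card P.Cfg ^ 2 * 2 ^ k + 1) ^ (k * (T / lam + 1) / J) := by
  classical
  have hne : Nonempty (Fin J) := ⟨⟨0, hJ⟩⟩
  let neg : (Fin J → Fin d → Bool) → (Fin J → Fin d → Bool) := fun X j i => !X j i
  obtain ⟨v, hv⟩ : ∃ v, v = k * (T / lam + 1) / J := ⟨_, rfl⟩
  have hdis : ∀ X, P.AcceptsIn T (W X (neg X)) := by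
    intro X
    apply hacc
    intro j i h1 h2
    simp only [neg] at h2
    rw [h1] at h2
    exact absurd h2 (by simp)
  have h1 : ∀ X, ∃ (t : ℕ) (c : ℕ → P.Cfg) (j : Fin J) (g : Fin v → Option (P.Cfg × P.Cfg ×
      (Fin k → Bool))), P.init (c 0).1 (c 0).2 ∧ P.acc (c t).1 (c t).2 ∧
      (∀ i < t, P.Step (W X (neg X)) (c i) (c (i + 1))) ∧
      ∀ a, a ∈ Tr lam pX pY X c t j ↔ ∃ i, g i = some a := by
    intro X
    obtain ⟨t, ht, c, hc0, hc1, hs⟩ := hdis X
    have h2 := near_sum hY1 hs (T / lam + 1)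
    obtain ⟨j, hj⟩ : ∃ j : Fin J, J * ((range (T / lam + 1)).filter
        (fun s => Near lam pY c t j s)).card ≤ k * (T / lam + 1) := by
      by_contra hcon
      push Not at hcon
      have h3 : ∑ j : Fin J, k * (T / lam + 1) < ∑ j : Fin J, J * ((range (T / lam + 1)).filter
          (fun s => Near lam pY c t j s)).card :=
        sum_lt_sum_of_nonempty univ_nonempty fun j _ => hcon j
      rw [sum_const, card_univ, Fintype.card_fin, smul_eq_mul, ← mul_sum] at h3
      exact absurd (Nat.mul_le_mul_left J h2) (by omega)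
    have hvj : ((range (T / lam + 1)).filter (fun s => Near lam pY c t j s)).card ≤ v := by
      rw [hv, Nat.le_div_iff_mul_le hJ, mul_comm]
      exact hj
    have hsub : Tr lam pX pY X c t j ⊆ (((range (T / lam + 1)).filter
        (fun s => Near lam pY c t j s)).image (fun s =>
        (D lam c t s, D lam c t (s + 1), bits lam pX X j (D lam c t s).2)) :
        Finset (P.Cfg × P.Cfg × (Fin k → Bool))) := by
      rintro τ ⟨s, hs1, hs2, rfl⟩
      rw [mem_coe, mem_image]
      refine ⟨s, ?_, rfl⟩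
      rw [mem_filter, mem_range]
      refine ⟨lt_of_lt_of_le hs1 ?_, hs2⟩
      have := Nat.div_le_div_right (c := lam) ht
      omega
    have hfin : (Tr lam pX pY X c t j).Finite := Set.Finite.subset (finite_toSet _) hsub
    have hcard : (Tr lam pX pY X c t j).ncard ≤ v := by
      refine (Set.ncard_le_ncard hsub (finite_toSet _)).trans ?_
      rw [Set.ncard_coe_finset]
      exact card_image_le.trans hvj
    obtain ⟨g, hg⟩ := exists_enum _ v hfin hcard
    exact ⟨t, c, j, g, hc0, hc1, hs, hg⟩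
  choose t c j g hc0 hc1 hs hg using h1
  let Φ : (Fin J → Fin d → Bool) → (Σ j : Fin J, ({j' : Fin J // j' ≠ j} → Fin d → Bool) ×
      (Fin v → Option (P.Cfg × P.Cfg × (Fin k → Bool)))) :=
    fun X => ⟨j X, (fun j' => X j'.1, g X)⟩
  have hinj : Function.Injective Φ := by
    intro X X' h
    have e1 : j X = j X' := congrArg Sigma.fst h
    have e0 : ∀ j', j' ≠ j X → X j' = X' j' ∧ g X = g X' := by
      intro j' hj'
      have h2 : ∀ (a b : Σ j : Fin J, ({j' : Fin J // j' ≠ j} → Fin d → Bool) ×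
          (Fin v → Option (P.Cfg × P.Cfg × (Fin k → Bool)))), a = b → ∀ (ha : j' ≠ a.1)
          (hb : j' ≠ b.1), a.2.1 ⟨j', ha⟩ = b.2.1 ⟨j', hb⟩ := by
        rintro a b rfl ha hb
        rfl
      have h3 : ∀ (a b : Σ j : Fin J, ({j' : Fin J // j' ≠ j} → Fin d → Bool) ×
          (Fin v → Option (P.Cfg × P.Cfg × (Fin k → Bool)))), a = b → a.2.2 = b.2.2 := by
        rintro a b rfl
        rfl
      exact ⟨h2 _ _ h hj' (by change j' ≠ j X'; rw [← e1]; exact hj'), h3 _ _ h⟩
    have eg : g X = g X' := by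
      have h3 : ∀ (a b : Σ j : Fin J, ({j' : Fin J // j' ≠ j} → Fin d → Bool) ×
          (Fin v → Option (P.Cfg × P.Cfg × (Fin k → Bool)))), a = b → a.2.2 = b.2.2 := by
        rintro a b rfl
        rfl
      exact h3 _ _ h
    have hX : ∀ j', j' ≠ j X → X j' = X' j' := fun j' hj' => (e0 j' hj').1
    have hN : ∀ j', j' ≠ j X → neg X j' = neg X' j' := by
      intro j' hj'
      simp only [neg, hX j' hj']
    have hTr : Tr lam pX pY X (c X) (t X) (j X) = Tr lam pX pY X' (c X') (t X') (j X) := by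
      ext a
      rw [hg X a, e1, hg X' a, eg]
    have a1 := cross hlam hW hX1 (hs X) (hs X') (hc0 X) (hc1 X) hX hN hTr
    have a2 := cross hlam hW hX1 (hs X') (hs X) (hc0 X') (hc1 X')
      (fun j' hj' => (hX j' hj').symm) (fun j' hj' => (hN j' hj').symm) hTr.symm
    funext j' i
    by_cases hj' : j' = j X
    · by_contra hne'
      rcases Bool.eq_false_or_eq_true (X j' i) with h5 | h5
      · have h6 : X' j' i = false := by
          rcases Bool.eq_false_or_eq_true (X' j' i) with h | h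
          · exact absurd (h5.trans h.symm) hne'
          · exact h
        exact hrej _ _ ⟨j', i, h5, by simp [neg, h6]⟩ a1
      · have h6 : X' j' i = true := by
          rcases Bool.eq_false_or_eq_true (X' j' i) with h | h
          · exact h
          · exact absurd (h5.trans h.symm) hne'
        exact hrej _ _ ⟨j', i, h6, by simp [neg, h5]⟩ a2
    · exact congrFun (hX j' hj') i
  have h2 := Fintype.card_le_of_injective Φ hinj
  rw [Fintype.card_sigma] at h2
  have h3 : ∀ j : Fin J, Fintype.card (({j' : Fin J // j' ≠ j} → Fin d → Bool) ×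
      (Fin v → Option (P.Cfg × P.Cfg × (Fin k → Bool)))) =
      (2 ^ d) ^ (J - 1) * (Fintype.card P.Cfg ^ 2 * 2 ^ k + 1) ^ v := by
    intro j
    have e1 : Fintype.card {j' : Fin J // j' ≠ j} = J - 1 := by
      rw [Fintype.card_subtype_compl, Fintype.card_fin, Fintype.card_subtype_eq]
    have e2 : Fintype.card (P.Cfg × P.Cfg × (Fin k → Bool)) = Fintype.card P.Cfg ^ 2 * 2 ^ k := by
      have h5 : Fintype.card (Fin k → Bool) = 2 ^ k := by
        rw [Fintype.card_fun, Fintype.card_bool, Fintype.card_fin]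
      rw [Fintype.card_prod P.Cfg (P.Cfg × (Fin k → Bool)), Fintype.card_prod P.Cfg (Fin k → Bool),
        h5]
      ring
    rw [Fintype.card_prod, Fintype.card_fun, Fintype.card_fun, Fintype.card_bool,
      Fintype.card_fin, e1, Fintype.card_fun, Fintype.card_option, Fintype.card_fin, e2]
  rw [sum_congr rfl fun j _ => h3 j, sum_const, card_univ, Fintype.card_fin, smul_eq_mul,
    Fintype.card_fun, Fintype.card_fun, Fintype.card_bool, Fintype.card_fin, Fintype.card_fin] at h2
  have h4 : (2 ^ d) ^ J = (2 ^ d) ^ (J - 1) * 2 ^ d := by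
    rw [← pow_succ]
    congr 1
    omega
  rw [h4] at h2
  rw [← hv]
  have h5 : 0 < (2 ^ d) ^ (J - 1) := by positivity
  have h6 : (2 ^ d) ^ (J - 1) * 2 ^ d ≤ (2 ^ d) ^ (J - 1) *
      (J * (Fintype.card P.Cfg ^ 2 * 2 ^ k + 1) ^ v) := by
    refine h2.trans (le_of_eq ?_)
    ring
  exact Nat.le_of_mul_le_mul_left h6 h5

end Pool.Agent.Q330.SH
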