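import Pool.Agent.Q330.SH.Num

/-!
# Slow heads and the triangle inequality
-/

set_option autoImplicit false

namespace Pool.Agent.Q330.SH.Metric

open Finset Pool.Agent.TH457.HT

variable {m N k : ℕ}

/-- The word which contains the entries of the matrix, row by row. -/
def word (W : Fin m → Fin m → ℕ) (P : Fin (m * m)) : ℕ :=
  W (finProdFinEquiv.symm P).1 (finProdFinEquiv.symm P).2

/-- Every arc is a shortest path. -/
def AllShortest (W : Fin m → Fin m → ℕ) : Prop := ∀ u v x, W u v ≤ W u x + W x v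

/-- an arc from the first to the second part -/
def InX (X : Fin N → Fin N → Bool) (u v : Fin m) : Prop :=
  ∃ j i : Fin N, (u : ℕ) = i ∧ (v : ℕ) = N + j ∧ X j i = true

/-- an arc from the second to the third part -/
def InY (Y : Fin N → Fin N → Bool) (u v : Fin m) : Prop :=
  ∃ j i : Fin N, (u : ℕ) = N + j ∧ (v : ℕ) = 2 * N + i ∧ Y j i = true

/-- a long arc from the first to the third part -/
def InC (N : ℕ) (u v : Fin m) : Prop := ∃ i : Fin N, (u : ℕ) = i ∧ (v : ℕ) = 2 * N + i

open Classical in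
/-- the instance -/
noncomputable def inst (X Y : Fin N → Fin N → Bool) (u v : Fin m) : ℕ :=
  if u = v then 0 else if InC N u v then 3 else if InX X u v ∨ InY Y u v then 1 else 2

theorem inst_pos (X Y : Fin N → Fin N → Bool) {u v : Fin m} (h : u ≠ v) : 1 ≤ inst X Y u v := by
  unfold inst
  rw [if_neg h]
  split_ifs <;> omega

theorem inst_le (X Y : Fin N → Fin N → Bool) {u v : Fin m} (h : ¬ InC N u v) :
    inst X Y u v ≤ 2 := by
  unfold inst
  split_ifs <;> omega

theorem inst_one (X Y : Fin N → Fin N → Bool) {u v : Fin m} (h : inst X Y u v ≤ 1) (hne : u ≠ v) :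
    InX X u v ∨ InY Y u v := by
  unfold inst at h
  rw [if_neg hne] at h
  by_contra hcon
  rw [if_neg hcon] at h
  split_ifs at h <;> omega

theorem metric_iff (hm : 3 * N ≤ m) (X Y : Fin N → Fin N → Bool) :
    AllShortest (inst (m := m) X Y) ↔ ∀ j i, X j i = true → Y j i = true → False := by
  classical
  constructor
  · intro h j i h1 h2
    have hj := j.2
    have hi := i.2
    have h3 := h ⟨i, by omega⟩ ⟨2 * N + i, by omega⟩ ⟨N + j, by omega⟩
    have e1 : inst X Y (⟨i, by omega⟩ : Fin m) ⟨2 * N + i, by omega⟩ = 3 := by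
      unfold inst
      rw [if_neg (by rw [Fin.ext_iff]; simp only; omega), if_pos ⟨i, rfl, rfl⟩]
    have e2 : inst X Y (⟨i, by omega⟩ : Fin m) ⟨N + j, by omega⟩ = 1 := by
      unfold inst
      rw [if_neg (by rw [Fin.ext_iff]; simp only; omega), if_neg, if_pos]
      · exact Or.inl ⟨j, i, rfl, rfl, h1⟩
      · rintro ⟨i', h4, h5⟩
        simp only at h4 h5
        omega
    have e3 : inst X Y (⟨N + j, by omega⟩ : Fin m) ⟨2 * N + i, by omega⟩ = 1 := by
      unfold inst
      rw [if_neg (by rw [Fin.ext_iff]; simp only; omega), if_neg, if_pos]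
      · exact Or.inr ⟨j, i, rfl, rfl, h2⟩
      · rintro ⟨i', h4, h5⟩
        simp only at h4 h5
        have := i'.2
        omega
    rw [e1, e2, e3] at h3
    omega
  · intro h u v x
    by_cases huv : u = v
    · have : inst X Y u v = 0 := by
        unfold inst
        rw [if_pos huv]
      omega
    by_cases hux : u = x
    · subst hux
      omega
    by_cases hxv : x = v
    · subst hxv
      omega
    have h1 := inst_pos X Y hux
    have h2 := inst_pos X Y hxv
    by_cases hC : InC N u v
    · have h3 : inst X Y u v = 3 := by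
        unfold inst
        rw [if_neg huv, if_pos hC]
      rw [h3]
      by_contra hcon
      have h4 := inst_one X Y (show inst X Y u x ≤ 1 by omega) hux
      have h5 := inst_one X Y (show inst X Y x v ≤ 1 by omega) hxv
      obtain ⟨a, ha1, ha2⟩ := hC
      have hax := a.2
      rcases h4 with ⟨j, i, b1, b2, b3⟩ | ⟨j, i, b1, b2, b3⟩
      · rcases h5 with ⟨j', i', c1, c2, c3⟩ | ⟨j', i', c1, c2, c3⟩
        · have := i'.2
          omega
        · have e1 : j = j' := Fin.ext (by omega)
          have e2 : i = i' := Fin.ext (by omega)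
          subst e1 e2
          exact h j i b3 c3
      · omega
    · have := inst_le X Y hC
      omega

/-- the places of `X` -/
def pX (hm : 3 * N ≤ m) (j i : Fin N) : Fin (m * m) :=
  finProdFinEquiv (⟨i, by omega⟩, ⟨N + j, by omega⟩)

/-- the places of `Y` -/
def pY (hm : 3 * N ≤ m) (j i : Fin N) : Fin (m * m) :=
  finProdFinEquiv (⟨N + j, by omega⟩, ⟨2 * N + i, by omega⟩)

theorem coding (hm : 3 * N ≤ m) : Coding (fun X Y => word (inst (m := m) X Y)) (pX hm) (pY hm) := by
  classical
  constructor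
  · intro X X' Y P h
    unfold word
    obtain ⟨c, hc⟩ : ∃ c, c = finProdFinEquiv.symm P := ⟨_, rfl⟩
    rw [← hc]
    have hP : finProdFinEquiv c = P := by rw [hc, Equiv.apply_symm_apply]
    obtain ⟨u, v⟩ := c
    have h1 : InX X u v ↔ InX X' u v := by
      have h2 : ∀ j i : Fin N, (u : ℕ) = i → (v : ℕ) = N + j → X j i = X' j i := by
        intro j i hu hv
        apply h
        rw [← hP]
        unfold pX
        congr 1
        exact Prod.ext (Fin.ext hu.symm) (Fin.ext hv.symm)
      unfold InX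
      constructor
      · rintro ⟨j, i, hu, hv, hx⟩
        exact ⟨j, i, hu, hv, by rw [← h2 j i hu hv]; exact hx⟩
      · rintro ⟨j, i, hu, hv, hx⟩
        exact ⟨j, i, hu, hv, by rw [h2 j i hu hv]; exact hx⟩
    simp only [inst, h1]
  · intro X Y Y' P h
    unfold word
    obtain ⟨c, hc⟩ : ∃ c, c = finProdFinEquiv.symm P := ⟨_, rfl⟩
    rw [← hc]
    have hP : finProdFinEquiv c = P := by rw [hc, Equiv.apply_symm_apply]
    obtain ⟨u, v⟩ := c
    have h1 : InY Y u v ↔ InY Y' u v := by
      have h2 : ∀ j i : Fin N, (u : ℕ) = N + j → (v : ℕ) = 2 * N + i → Y j i = Y' j i := by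
        intro j i hu hv
        apply h
        rw [← hP]
        unfold pY
        congr 1
        exact Prod.ext (Fin.ext hu.symm) (Fin.ext hv.symm)
      unfold InY
      constructor
      · rintro ⟨j, i, hu, hv, hx⟩
        exact ⟨j, i, hu, hv, by rw [← h2 j i hu hv]; exact hx⟩
      · rintro ⟨j, i, hu, hv, hx⟩
        exact ⟨j, i, hu, hv, by rw [h2 j i hu hv]; exact hx⟩
    simp only [inst, h1]

theorem far {m a a' x x' c : ℕ} (h : a ≠ a')
    (h1 : x + m * a < x' + m * a' + c) (h2 : x' + m * a' < x + m * a + c)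
    (hd : x + c ≤ x' + m ∧ x' + c ≤ x + m) : False := by
  rcases Nat.lt_or_gt_of_ne h with h3 | h3
  · obtain ⟨t, rfl⟩ := Nat.exists_eq_add_of_lt h3
    have e : m * (a + t + 1) = m * a + m * t + m := by ring
    rw [e] at h2
    have : 0 ≤ m * t := Nat.zero_le _
    omega
  · obtain ⟨t, rfl⟩ := Nat.exists_eq_add_of_lt h3
    have e : m * (a' + t + 1) = m * a' + m * t + m := by ring
    rw [e] at h1
    have : 0 ≤ m * t := Nat.zero_le _
    omega

theorem small_pow : ∀ a : ℕ, 4 ≤ a → 2 * a + 1 < 2 ^ a := by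
  intro a ha
  induction a, ha using Nat.le_induction with
  | base => norm_num
  | succ a ha ih =>
    rw [pow_succ]
    omega

theorem metric_bound (P : HeadProg ℕ (m * m) k) (T S : ℕ) (hk : 1 ≤ k)
    (hS : Fintype.card P.Q * (m * m) ^ k ≤ 2 ^ S)
    (hacc : ∀ W : Fin m → Fin m → ℕ, (∀ u v, W u v ≤ 3 ∧ (W u v = 0 ↔ u = v)) →
      AllShortest W → P.AcceptsIn T (word W))
    (hrej : ∀ W : Fin m → Fin m → ℕ, (∀ u v, W u v ≤ 3 ∧ (W u v = 0 ↔ u = v)) →
      ¬ AllShortest W → ¬ P.Accepts (word W)) :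
    m ^ 3 ≤ 600 * k * (S + 1) * (T + m) := by
  classical
  rcases Nat.lt_or_ge m 24 with hm | hm
  · have h1 : m * m ≤ 23 * 23 := Nat.mul_le_mul (by omega) (by omega)
    have h2 : 1 ≤ k * (S + 1) := Nat.mul_pos hk (by omega)
    calc m ^ 3 = m * m * m := by ring
      _ ≤ 23 * 23 * m := Nat.mul_le_mul_right _ h1
      _ ≤ 600 * 1 * m := Nat.mul_le_mul_right _ (by norm_num)
      _ ≤ 600 * (k * (S + 1)) * (T + m) := by gcongr; omega
      _ = 600 * k * (S + 1) * (T + m) := by ring
  obtain ⟨N, hN⟩ : ∃ N, N = m / 3 := ⟨_, rfl⟩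
  have hm3 : 3 * N ≤ m := by omega
  have hN8 : 8 ≤ N := by omega
  have hm4 : 4 * m ≤ 13 * N := by omega
  have hW : ∀ (X Y : Fin N → Fin N → Bool) (u v : Fin m), inst X Y u v ≤ 3 ∧
      (inst X Y u v = 0 ↔ u = v) := by
    intro X Y u v
    unfold inst
    split_ifs with h1 h2 h3 <;> simp [h1]
  have he : N ≤ 2 ^ (N / 2) := by
    have := small_pow (N / 2) (by omega)
    omega
  have h := main P (fun X Y => word (inst X Y)) (pX hm3) (pY hm3)
    (show 0 < N by omega) (by omega) (by nlinarith) (coding hm3) (by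
      intro j i i' h
      by_contra hne
      have hne' : (i : ℕ) ≠ i' := fun h => hne (Fin.ext h)
      unfold pX at h
      simp only [finProdFinEquiv_apply_val] at h
      exact far (m := m) (a := (i : ℕ)) (a' := (i' : ℕ)) (x := N + j) (x' := N + j) (c := 2 * N)
        hne' (by omega) (by omega) (by omega)) (by
      intro j j' i i' h
      by_contra hne
      have hne' : (j : ℕ) ≠ j' := fun h => hne (Fin.ext h)
      unfold pY at h
      simp only [finProdFinEquiv_apply_val] at h
      have h1 := i.2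
      have h2 := i'.2
      exact far (m := m) (a := N + (j : ℕ)) (a' := N + (j' : ℕ)) (x := 2 * N + i)
        (x' := 2 * N + i') (c := 2 * N) (by omega) (by omega) (by omega) (by omega))
    T S (N / 2) hS he
    (fun X Y hXY => hacc _ (hW X Y) ((metric_iff hm3 X Y).2 hXY))
    (fun X Y hXY => hrej _ (hW X Y) (by
      rw [metric_iff hm3 X Y]
      obtain ⟨j, i, h1, h2⟩ := hXY
      exact fun h => h j i h1 h2))
  have h2 : N * N * N ≤ 6 * k * (S + 1) * (T + N) := by
    have e1 : N * (N / 2) * N * 2 ≤ N * N * N := by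
      calc N * (N / 2) * N * 2 = N * N * (2 * (N / 2)) := by ring
        _ ≤ N * N * N := Nat.mul_le_mul_left _ (Nat.mul_div_le _ _)
    have e2 : 6 * k * (S + 1) * (T + N) = 2 * (3 * k * (S + 1) * (T + N)) := by ring
    omega
  have h3 : 64 * m ^ 3 ≤ 2197 * (N * N * N) := by
    calc 64 * m ^ 3 = (4 * m) * (4 * m) * (4 * m) := by ring
      _ ≤ (13 * N) * (13 * N) * (13 * N) := by gcongr
      _ = 2197 * (N * N * N) := by ring
  have h4 : 64 * m ^ 3 ≤ 64 * (600 * k * (S + 1) * (T + m)) := by
    calc 64 * m ^ 3 ≤ 2197 * (N * N * N) := h3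
      _ ≤ 2197 * (6 * k * (S + 1) * (T + N)) := Nat.mul_le_mul_left _ h2
      _ = 13182 * (k * (S + 1)) * (T + N) := by ring
      _ ≤ 38400 * (k * (S + 1)) * (T + m) := by gcongr <;> omega
      _ = 64 * (600 * k * (S + 1) * (T + m)) := by ring
  omega

end Pool.Agent.Q330.SH.Metric
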