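import Pool.Agent.Q330.SH.Main

/-!
# Slow heads and transposed matrices: the bound without logarithms
-/

set_option autoImplicit false

namespace Pool.Agent.Q330.SH

open Finset Pool.Agent.TH457.HT

variable {Λ : Type} {n k J d lam : ℕ}

theorem numeric {k S T J d lam C e : ℕ} (hJ0 : 0 < J) (hC : C ≤ 2 ^ S) (hk : k ≤ S)
    (hJ : J ≤ 2 ^ e) (h : 2 ^ d ≤ J * (C ^ 2 * 2 ^ k + 1) ^ (k * (T / lam + 1) / J)) :
    J * d * lam ≤ J * e * lam + 3 * k * (S + 1) * (T + lam) := by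
  obtain ⟨q, hq⟩ : ∃ q, q = k * (T / lam + 1) / J := ⟨_, rfl⟩
  rw [← hq] at h
  have h1 : C ^ 2 * 2 ^ k + 1 ≤ 2 ^ (3 * S + 1) := by
    have h2 : C ^ 2 ≤ (2 ^ S) ^ 2 := Nat.pow_le_pow_left hC 2
    have h3 : 2 ^ k ≤ 2 ^ S := Nat.pow_le_pow_right (by norm_num) hk
    have h4 : C ^ 2 * 2 ^ k ≤ (2 ^ S) ^ 2 * 2 ^ S := Nat.mul_le_mul h2 h3
    have h5 : (2 ^ S) ^ 2 * 2 ^ S = 2 ^ (3 * S) := by
      rw [← pow_mul, ← pow_add]
      congr 1
      ring
    have h6 : 1 ≤ 2 ^ (3 * S) := Nat.one_le_two_pow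
    rw [h5] at h4
    calc C ^ 2 * 2 ^ k + 1 ≤ 2 ^ (3 * S) + 2 ^ (3 * S) := Nat.add_le_add h4 h6
      _ = 2 ^ (3 * S + 1) := by rw [pow_succ]; ring
  have h2 : 2 ^ d ≤ 2 ^ (e + (3 * S + 1) * q) := by
    refine h.trans ?_
    rw [pow_add, pow_mul]
    exact Nat.mul_le_mul hJ (Nat.pow_le_pow_left h1 q)
  have h3 : d ≤ e + (3 * S + 1) * q := (Nat.pow_le_pow_iff_right (by norm_num)).1 h2
  have h4 : J * q ≤ k * (T / lam + 1) := by
    rw [hq]
    exact Nat.mul_div_le _ _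
  have h5 : lam * (T / lam) ≤ T := Nat.mul_div_le _ _
  calc J * d * lam ≤ J * (e + (3 * S + 1) * q) * lam :=
        Nat.mul_le_mul_right _ (Nat.mul_le_mul_left _ h3)
    _ = J * e * lam + (3 * S + 1) * lam * (J * q) := by ring
    _ ≤ J * e * lam + (3 * S + 1) * lam * (k * (T / lam + 1)) := by gcongr
    _ = J * e * lam + k * (3 * S + 1) * (lam * (T / lam) + lam) := by ring
    _ ≤ J * e * lam + k * (3 * S + 1) * (T + lam) := by gcongr
    _ ≤ J * e * lam + 3 * k * (S + 1) * (T + lam) := by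
        apply Nat.add_le_add_left
        apply Nat.mul_le_mul_right
        nlinarith

/-- **The bound**, in the form in which it is used. -/
theorem main (P : HeadProg Λ n k) (W : (Fin J → Fin d → Bool) → (Fin J → Fin d → Bool) → Fin n → Λ)
    (pX pY : Fin J → Fin d → Fin n) (hlam : 0 < lam) (hJ : 0 < J) (hn : 2 ≤ n) (hW : Coding W pX pY)
    (hX1 : ∀ j i i', ((pX j i : ℕ) < pX j i' + 2 * lam ∧ (pX j i' : ℕ) < pX j i + 2 * lam) → i = i')
    (hY1 : ∀ j j' i i', ((pY j i : ℕ) < pY j' i' + 2 * lam ∧ (pY j' i' : ℕ) < pY j i + 2 * lam) →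
      j = j')
    (T S e : ℕ) (hS : Fintype.card P.Q * n ^ k ≤ 2 ^ S) (he : J ≤ 2 ^ e)
    (hacc : ∀ X Y, (∀ j i, X j i = true → Y j i = true → False) → P.AcceptsIn T (W X Y))
    (hrej : ∀ X Y, (∃ j i, X j i = true ∧ Y j i = true) → ¬ P.Accepts (W X Y)) :
    J * d * lam ≤ J * e * lam + 3 * k * (S + 1) * (T + lam) := by
  have hb := bound P W pX pY hlam hJ hW hX1 hY1 T hacc hrej
  have hcard : Fintype.card P.Cfg = Fintype.card P.Q * n ^ k := by
    rw [Fintype.card_prod, Fintype.card_fun, Fintype.card_fin, Fintype.card_fin]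
  have hk : k ≤ S := by
    obtain ⟨t, -, c, -, -, -⟩ := hacc (fun _ _ => false) (fun _ _ => false)
      (fun j i h _ => absurd h (by simp))
    have h1 : 0 < Fintype.card P.Q := Fintype.card_pos_iff.2 ⟨(c 0).1⟩
    have h2 : 2 ^ k ≤ n ^ k := Nat.pow_le_pow_left hn k
    have h3 : n ^ k ≤ Fintype.card P.Q * n ^ k := Nat.le_mul_of_pos_left _ h1
    exact (Nat.pow_le_pow_iff_right (by norm_num)).1 ((h2.trans h3).trans hS)
  exact numeric hJ (by rw [hcard]; exact hS) hk he hb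

end Pool.Agent.Q330.SH
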