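import Pool.Agent.Q330.SH.Num

/-!
# Slow heads and exact triangles
-/

set_option autoImplicit false

namespace Pool.Agent.Q330.SH.Tri

open Finset Pool.Agent.TH457.HT

variable {N lam : ℕ}

/-- the places of the word: matrix, major index, minor index -/
def cell (N : ℕ) : Fin 3 × (Fin N × Fin N) ≃ Fin (3 * (N * N)) :=
  (Equiv.prodCongr (Equiv.refl (Fin 3)) finProdFinEquiv).trans finProdFinEquiv

theorem cell_val (r : Fin 3) (a b : Fin N) :
    (cell N (r, (a, b)) : ℕ) = (b : ℕ) + N * a + N * N * r := by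
  simp [cell, finProdFinEquiv]

/-- The word which contains the three matrices one after the other: the matrix `r` is stored row by
row if `ρ r` is true, and column by column otherwise. -/
def word (ρ : Fin 3 → Bool) (w : Fin 3 → Fin N → Fin N → ℤ) (P : Fin (3 * (N * N))) : ℤ :=
  if ρ ((cell N).symm P).1 then
    w ((cell N).symm P).1 ((cell N).symm P).2.1 ((cell N).symm P).2.2
  else w ((cell N).symm P).1 ((cell N).symm P).2.2 ((cell N).symm P).2.1

/-- There is a triangle of weight zero: `w 0 i j`, `w 1 j k`, `w 2 i k` are the weights of the edges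
between the parts 1 and 2, 2 and 3, 1 and 3. -/
def HasZero (w : Fin 3 → Fin N → Fin N → ℤ) : Prop :=
  ∃ i j k, w 0 i j + w 1 j k + w 2 i k = 0

/-- entries of the matrix `X` -/
def InX (X : Fin N → Fin (2 * lam) → Bool) (a b : Fin N) : Prop :=
  ∃ i : Fin (2 * lam), (i : ℕ) + lam = a ∧ X b i = true

/-- entries of the matrix `Y` -/
def InY (Y : Fin N → Fin (2 * lam) → Bool) (a b : Fin N) : Prop :=
  ∃ i : Fin (2 * lam), (i : ℕ) + lam = b ∧ Y a i = true

/-- the zero entries of the matrices, by major and minor index -/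
def Zr (p q : Fin 3) (X Y : Fin N → Fin (2 * lam) → Bool) (r : Fin 3) (a b : Fin N) : Prop :=
  if r = p then InX X a b else if r = q then InY Y a b else a = b

open Classical in
/-- the instance, with the entries by major and minor index -/
noncomputable def V (p q : Fin 3) (X Y : Fin N → Fin (2 * lam) → Bool) (r : Fin 3)
    (a b : Fin N) : ℤ := if Zr p q X Y r a b then 0 else 1

/-- the instance -/
noncomputable def inst (ρ : Fin 3 → Bool) (p q : Fin 3) (X Y : Fin N → Fin (2 * lam) → Bool)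
    (r : Fin 3) (x y : Fin N) : ℤ := if ρ r then V p q X Y r x y else V p q X Y r y x

theorem word_inst (ρ : Fin 3 → Bool) (p q : Fin 3) (X Y : Fin N → Fin (2 * lam) → Bool)
    (P : Fin (3 * (N * N))) :
    word ρ (inst ρ p q X Y) P = V p q X Y ((cell N).symm P).1 ((cell N).symm P).2.1
      ((cell N).symm P).2.2 := by
  unfold word inst
  split_ifs <;> rfl

theorem V_nonneg (p q : Fin 3) (X Y : Fin N → Fin (2 * lam) → Bool) (r : Fin 3) (a b : Fin N) :
    0 ≤ V p q X Y r a b := by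
  unfold V
  split_ifs <;> norm_num

theorem V_zero (p q : Fin 3) (X Y : Fin N → Fin (2 * lam) → Bool) (r : Fin 3) (a b : Fin N) :
    V p q X Y r a b = 0 ↔ Zr p q X Y r a b := by
  unfold V
  split_ifs with h <;> simp [h]

theorem hasZero_iff (ρ : Fin 3 → Bool) (p q : Fin 3) (X Y : Fin N → Fin (2 * lam) → Bool) :
    HasZero (inst ρ p q X Y) ↔ ∃ i j k,
      (if ρ 0 then Zr p q X Y 0 i j else Zr p q X Y 0 j i) ∧
      (if ρ 1 then Zr p q X Y 1 j k else Zr p q X Y 1 k j) ∧
      (if ρ 2 then Zr p q X Y 2 i k else Zr p q X Y 2 k i) := by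
  have h0 : ∀ r x y, 0 ≤ inst ρ p q X Y r x y := by
    intro r x y
    unfold inst
    split_ifs
    · exact V_nonneg _ _ _ _ _ _ _
    · exact V_nonneg _ _ _ _ _ _ _
  have h1 : ∀ r x y, inst ρ p q X Y r x y = 0 ↔
      (if ρ r then Zr p q X Y r x y else Zr p q X Y r y x) := by
    intro r x y
    unfold inst
    split_ifs
    · exact V_zero _ _ _ _ _ _ _
    · exact V_zero _ _ _ _ _ _ _
  unfold HasZero
  refine exists_congr fun i => exists_congr fun j => exists_congr fun k => ?_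
  rw [← h1, ← h1, ← h1]
  have a1 := h0 0 i j
  have a2 := h0 1 j k
  have a3 := h0 2 i k
  constructor
  · intro h
    refine ⟨by omega, by omega, by omega⟩
  · rintro ⟨e1, e2, e3⟩
    rw [e1, e2, e3]
    norm_num

theorem core_iff (X Y : Fin N → Fin (2 * lam) → Bool) (hN : 4 * lam ≤ N) :
    (∃ a b, InX X a b ∧ InY Y b a) ↔ ∃ j i, X j i = true ∧ Y j i = true := by
  constructor
  · rintro ⟨a, b, ⟨i, h1, h2⟩, ⟨i', h3, h4⟩⟩
    have e : i = i' := Fin.ext (by omega)
    subst e
    exact ⟨b, i, h2, h4⟩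
  · rintro ⟨j, i, h1, h2⟩
    refine ⟨⟨i + lam, by omega⟩, j, ⟨i, rfl, h1⟩, ⟨i, rfl, h2⟩⟩

/-- some matrix is stored by an index by which another one is not stored -/
theorem choice (ρ : Fin 3 → Bool) (hN : 4 * lam ≤ N) : ∃ p q : Fin 3, p ≠ q ∧
    ∀ X Y : Fin N → Fin (2 * lam) → Bool,
      HasZero (inst ρ p q X Y) ↔ ∃ j i, X j i = true ∧ Y j i = true := by
  rcases h0 : ρ 0 with _ | _ <;> rcases h1 : ρ 1 with _ | _ <;> rcases h2 : ρ 2 with _ | _
  · -- j-major, k-major: share j, `w 0` grouped, `w 1` spread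
    refine ⟨1, 0, by decide, fun X Y => ?_⟩
    rw [hasZero_iff, ← core_iff X Y hN]
    simp only [h0, h1, h2, Zr]
    constructor
    · rintro ⟨i, j, k, e1, e2, e3⟩
      simp at e1 e2 e3
      subst e3
      exact ⟨_, _, e2, e1⟩
    · rintro ⟨a, b, e1, e2⟩
      refine ⟨a, b, a, ?_, ?_, ?_⟩ <;> simp [e1, e2]
  · refine ⟨1, 0, by decide, fun X Y => ?_⟩
    rw [hasZero_iff, ← core_iff X Y hN]
    simp only [h0, h1, h2, Zr]
    constructor
    · rintro ⟨i, j, k, e1, e2, e3⟩
      simp at e1 e2 e3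
      subst e3
      exact ⟨_, _, e2, e1⟩
    · rintro ⟨a, b, e1, e2⟩
      refine ⟨a, b, a, ?_, ?_, ?_⟩ <;> simp [e1, e2]
  · -- j-major, j-major, k-major: share k, `w 2` grouped, `w 1` spread
    refine ⟨1, 2, by decide, fun X Y => ?_⟩
    rw [hasZero_iff, ← core_iff X Y hN]
    simp only [h0, h1, h2, Zr]
    constructor
    · rintro ⟨i, j, k, e1, e2, e3⟩
      simp at e1 e2 e3
      subst e1
      exact ⟨_, _, e2, e3⟩
    · rintro ⟨a, b, e1, e2⟩
      refine ⟨a, a, b, ?_, ?_, ?_⟩ <;> simp [e1, e2]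
  · -- j-major, j-major, i-major: share i, `w 2` grouped, `w 0` spread
    refine ⟨0, 2, by decide, fun X Y => ?_⟩
    rw [hasZero_iff, ← core_iff X Y hN]
    simp only [h0, h1, h2, Zr]
    constructor
    · rintro ⟨i, j, k, e1, e2, e3⟩
      simp at e1 e2 e3
      subst e2
      exact ⟨_, _, e1, e3⟩
    · rintro ⟨a, b, e1, e2⟩
      refine ⟨b, a, a, ?_, ?_, ?_⟩ <;> simp [e1, e2]
  · -- i-major, k-major, k-major: share i, `w 0` grouped, `w 2` spread
    refine ⟨2, 0, by decide, fun X Y => ?_⟩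
    rw [hasZero_iff, ← core_iff X Y hN]
    simp only [h0, h1, h2, Zr]
    constructor
    · rintro ⟨i, j, k, e1, e2, e3⟩
      simp at e1 e2 e3
      subst e2
      exact ⟨_, _, e3, e1⟩
    · rintro ⟨a, b, e1, e2⟩
      refine ⟨b, a, a, ?_, ?_, ?_⟩ <;> simp [e1, e2]
  · -- i-major, k-major, i-major: share k, `w 1` grouped, `w 2` spread
    refine ⟨2, 1, by decide, fun X Y => ?_⟩
    rw [hasZero_iff, ← core_iff X Y hN]
    simp only [h0, h1, h2, Zr]
    constructor
    · rintro ⟨i, j, k, e1, e2, e3⟩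
      simp at e1 e2 e3
      subst e1
      exact ⟨_, _, e3, e2⟩
    · rintro ⟨a, b, e1, e2⟩
      refine ⟨a, a, b, ?_, ?_, ?_⟩ <;> simp [e1, e2]
  · -- i-major, j-major: share j, `w 1` grouped, `w 0` spread
    refine ⟨0, 1, by decide, fun X Y => ?_⟩
    rw [hasZero_iff, ← core_iff X Y hN]
    simp only [h0, h1, h2, Zr]
    constructor
    · rintro ⟨i, j, k, e1, e2, e3⟩
      simp at e1 e2 e3
      subst e3
      exact ⟨_, _, e1, e2⟩
    · rintro ⟨a, b, e1, e2⟩
      refine ⟨a, b, a, ?_, ?_, ?_⟩ <;> simp [e1, e2]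
  · refine ⟨0, 1, by decide, fun X Y => ?_⟩
    rw [hasZero_iff, ← core_iff X Y hN]
    simp only [h0, h1, h2, Zr]
    constructor
    · rintro ⟨i, j, k, e1, e2, e3⟩
      simp at e1 e2 e3
      subst e3
      exact ⟨_, _, e1, e2⟩
    · rintro ⟨a, b, e1, e2⟩
      refine ⟨a, b, a, ?_, ?_, ?_⟩ <;> simp [e1, e2]

end Pool.Agent.Q330.SH.Tri
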