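import Pool.Agent.Q330.SH.Tri

/-!
# Slow heads and exact triangles: the bound
-/

set_option autoImplicit false

namespace Pool.Agent.Q330.SH.Tri

open Finset Pool.Agent.TH457.HT

variable {N lam k : ℕ}

/-- the places of `X` -/
def pX (N lam : ℕ) (hN : 4 * lam ≤ N) (p : Fin 3) (j : Fin N) (i : Fin (2 * lam)) :
    Fin (3 * (N * N)) := cell N (p, (⟨i + lam, by omega⟩, j))

/-- the places of `Y` -/
def pY (N lam : ℕ) (hN : 4 * lam ≤ N) (q : Fin 3) (j : Fin N) (i : Fin (2 * lam)) :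
    Fin (3 * (N * N)) := cell N (q, (j, ⟨i + lam, by omega⟩))

theorem coding (hN : 4 * lam ≤ N) (ρ : Fin 3 → Bool) (p q : Fin 3) :
    Coding (fun X Y => word ρ (inst ρ p q X Y)) (pX N lam hN p) (pY N lam hN q) := by
  classical
  constructor
  · intro X X' Y P h
    simp only [word_inst]
    obtain ⟨c, hc⟩ : ∃ c, c = (cell N).symm P := ⟨_, rfl⟩
    rw [← hc]
    have hP : cell N c = P := by rw [hc, Equiv.apply_symm_apply]
    obtain ⟨r, a, b⟩ := c
    unfold V Zr
    have h1 : r = p → (InX X a b ↔ InX X' a b) := by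
      rintro rfl
      have h2 : ∀ i : Fin (2 * lam), (i : ℕ) + lam = a → X b i = X' b i := by
        intro i hi
        apply h
        rw [← hP]
        unfold pX
        congr 2
        exact Prod.ext (Fin.ext hi) rfl
      unfold InX
      constructor
      · rintro ⟨i, hi, hx⟩
        exact ⟨i, hi, by rw [← h2 i hi]; exact hx⟩
      · rintro ⟨i, hi, hx⟩
        exact ⟨i, hi, by rw [h2 i hi]; exact hx⟩
    by_cases hr : r = p
    · simp only [hr, if_true]
      rw [if_congr (h1 hr) rfl rfl]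
    · simp only [hr, if_false]
  · intro X Y Y' P h
    simp only [word_inst]
    obtain ⟨c, hc⟩ : ∃ c, c = (cell N).symm P := ⟨_, rfl⟩
    rw [← hc]
    have hP : cell N c = P := by rw [hc, Equiv.apply_symm_apply]
    obtain ⟨r, a, b⟩ := c
    unfold V Zr
    have h1 : r = q → (InY Y a b ↔ InY Y' a b) := by
      rintro rfl
      have h2 : ∀ i : Fin (2 * lam), (i : ℕ) + lam = b → Y a i = Y' a i := by
        intro i hi
        apply h
        rw [← hP]
        unfold pY
        congr 2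
        exact Prod.ext rfl (Fin.ext hi)
      unfold InY
      constructor
      · rintro ⟨i, hi, hx⟩
        exact ⟨i, hi, by rw [← h2 i hi]; exact hx⟩
      · rintro ⟨i, hi, hx⟩
        exact ⟨i, hi, by rw [h2 i hi]; exact hx⟩
    by_cases hr : r = p
    · simp only [hr, if_true]
    · simp only [hr, if_false]
      by_cases hq : r = q
      · simp only [hq, if_true]
        rw [if_congr (h1 hq) rfl rfl]
      · simp only [hq, if_false]

/-- numbers in base `N` -/
theorem far {N a a' x x' c : ℕ} (_hx : x < N) (_hx' : x' < N) (h : a ≠ a')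
    (h1 : x + N * a < x' + N * a' + c) (h2 : x' + N * a' < x + N * a + c)
    (hd : x ≤ x' + (N - c) ∧ x' ≤ x + (N - c)) (hc : c ≤ N) : False := by
  rcases Nat.lt_or_gt_of_ne h with h3 | h3
  · obtain ⟨t, rfl⟩ := Nat.exists_eq_add_of_lt h3
    have e : N * (a + t + 1) = N * a + N * t + N := by ring
    rw [e] at h2
    have : 0 ≤ N * t := Nat.zero_le _
    omega
  · obtain ⟨t, rfl⟩ := Nat.exists_eq_add_of_lt h3
    have e : N * (a' + t + 1) = N * a' + N * t + N := by ring
    rw [e] at h1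
    have : 0 ≤ N * t := Nat.zero_le _
    omega

theorem small_pow : ∀ a : ℕ, 8 ≤ a → 4 * a + 3 < 2 ^ a := by
  intro a ha
  induction a, ha using Nat.le_induction with
  | base => norm_num
  | succ a ha ih =>
    rw [pow_succ]
    omega

theorem tri_bound (ρ : Fin 3 → Bool) (P : HeadProg ℤ (3 * (N * N)) k) (T S : ℕ) (hk : 1 ≤ k)
    (hS : Fintype.card P.Q * (3 * (N * N)) ^ k ≤ 2 ^ S)
    (hacc : ∀ w : Fin 3 → Fin N → Fin N → ℤ, (∀ r i j, w r i j = 0 ∨ w r i j = 1) →
      ¬ HasZero w → P.AcceptsIn T (word ρ w))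
    (hrej : ∀ w : Fin 3 → Fin N → Fin N → ℤ, (∀ r i j, w r i j = 0 ∨ w r i j = 1) →
      HasZero w → ¬ P.Accepts (word ρ w)) :
    N ^ 3 ≤ 1024 * k * (S + 1) * (T + N) := by
  classical
  rcases Nat.lt_or_ge N 32 with hN | hN
  · have h1 : N * N ≤ 31 * 31 := Nat.mul_le_mul (by omega) (by omega)
    have h2 : 1 ≤ k * (S + 1) := Nat.mul_pos hk (by omega)
    calc N ^ 3 = N * N * N := by ring
      _ ≤ 31 * 31 * N := Nat.mul_le_mul_right _ h1
      _ ≤ 1024 * 1 * N := Nat.mul_le_mul_right _ (by norm_num)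
      _ ≤ 1024 * (k * (S + 1)) * (T + N) := by gcongr; omega
      _ = 1024 * k * (S + 1) * (T + N) := by ring
  obtain ⟨l, hl⟩ : ∃ l, l = N / 4 := ⟨_, rfl⟩
  have hl4 : 4 * l ≤ N := by omega
  have hl8 : 8 ≤ l := by omega
  have hl5 : N ≤ 5 * l := by omega
  obtain ⟨p, q, hpq, hpq2⟩ := choice (lam := l) ρ hl4
  have h01 : ∀ X Y r i j, inst (N := N) (lam := l) ρ p q X Y r i j = 0 ∨
      inst (N := N) (lam := l) ρ p q X Y r i j = 1 := by
    intro X Y r i j
    unfold inst V
    split_ifs <;> simp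
  have he : N ≤ 2 ^ l := by
    have := small_pow l hl8
    omega
  have h := main (lam := l) P (fun X Y => word ρ (inst (lam := l) ρ p q X Y)) (pX N l hl4 p) (pY N l hl4 q)
    (by omega) (by omega) (by nlinarith) (coding hl4 ρ p q) (by
      intro j i i' h
      by_contra hne
      have hne' : (i : ℕ) ≠ i' := fun h => hne (Fin.ext h)
      unfold pX at h
      rw [cell_val, cell_val] at h
      simp only at h
      obtain ⟨Z, hZ⟩ : ∃ Z, Z = N * N * (p : ℕ) := ⟨_, rfl⟩
      obtain ⟨Y1, hY1⟩ : ∃ Y1, Y1 = N * ((i : ℕ) + l) := ⟨_, rfl⟩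
      obtain ⟨Y2, hY2⟩ : ∃ Y2, Y2 = N * ((i' : ℕ) + l) := ⟨_, rfl⟩
      rw [← hZ, ← hY1, ← hY2] at h
      obtain ⟨h1, h2⟩ := h
      have hj := j.2
      exact far (N := N) (a := (i : ℕ) + l) (a' := (i' : ℕ) + l) (x := j) (x' := j) (c := 2 * l)
        hj hj (by omega) (by rw [← hY1, ← hY2]; omega) (by rw [← hY1, ← hY2]; omega)
        (by omega) (by omega)) (by
      intro j j' i i' h
      by_contra hne
      have hne' : (j : ℕ) ≠ j' := fun h => hne (Fin.ext h)
      unfold pY at h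
      rw [cell_val, cell_val] at h
      simp only at h
      have h1 := i.2
      have h2 := i'.2
      obtain ⟨Z, hZ⟩ : ∃ Z, Z = N * N * (q : ℕ) := ⟨_, rfl⟩
      obtain ⟨Y1, hY1⟩ : ∃ Y1, Y1 = N * (j : ℕ) := ⟨_, rfl⟩
      obtain ⟨Y2, hY2⟩ : ∃ Y2, Y2 = N * (j' : ℕ) := ⟨_, rfl⟩
      rw [← hZ, ← hY1, ← hY2] at h
      obtain ⟨h3, h4⟩ := h
      exact far (N := N) (a := (j : ℕ)) (a' := (j' : ℕ)) (x := i + l) (x' := i' + l) (c := 2 * l)
        (by omega) (by omega) hne' (by rw [← hY1, ← hY2]; omega) (by rw [← hY1, ← hY2]; omega)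
        (by omega) (by omega))
    T S l hS he
    (fun X Y hXY => hacc _ (h01 X Y) (by
      rw [hpq2]
      rintro ⟨j, i, h1, h2⟩
      exact hXY j i h1 h2))
    (fun X Y hXY => hrej _ (h01 X Y) (by
      rw [hpq2]
      exact hXY))
  have h2 : N * l * l ≤ 3 * k * (S + 1) * (T + l) := by
    have e : N * (2 * l) * l = N * l * l + N * l * l := by ring
    omega
  calc N ^ 3 = N * N * N := by ring
    _ ≤ N * (5 * l) * (5 * l) := by gcongr
    _ = 25 * (N * l * l) := by ring
    _ ≤ 25 * (3 * k * (S + 1) * (T + l)) := Nat.mul_le_mul_left _ h2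
    _ = 75 * (k * (S + 1)) * (T + l) := by ring
    _ ≤ 1024 * (k * (S + 1)) * (T + N) := by gcongr <;> omega
    _ = 1024 * k * (S + 1) * (T + N) := by ring

end Pool.Agent.Q330.SH.Tri
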